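import Pool.Agent.Helper27.UC.Goals

/-!
PROJECT UC (MP_d3128a_ag), packet GLUE: the combinatorial iteration (helper25).
-/

set_option autoImplicit false

namespace Pool.Agent.Helper25.UC.GLUE

open Pool.Agent.Helper27.UC

theorem iter (h1 : S_G1M) (d m N : ℕ) : ∀ (j : ℕ) (l : Multiset ℕ),
    (∀ i k, i + k = j → gd d (rp i (2 * m + 1) + rp k (2 * m) + l) ≤ N + k * m) →
    gd d (rp (4 * j) m + l) ≤ N := by
  intro j
  induction j with
  | zero =>
    intro l h
    have := h 0 0 rfl
    simpa [rp] using this
  | succ j ih =>
    intro l h
    have e : rp (4 * (j + 1)) m + l = rp (4 * j) m + (rp 4 m + l) := by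
      unfold rp
      rw [show 4 * (j + 1) = 4 * j + 4 by ring, Multiset.replicate_add, add_assoc]
    rw [e]
    refine ih (rp 4 m + l) ?_
    intro i k hik
    have e2 : rp i (2 * m + 1) + rp k (2 * m) + (rp 4 m + l) =
        rp 4 m + (rp i (2 * m + 1) + rp k (2 * m) + l) := by
      rw [← add_assoc, add_comm _ (rp 4 m), add_assoc, add_assoc]
    rw [e2]
    refine h1 d m (N + k * m) _ ?_ ?_
    · have e3 : (2 * m + 1) ::ₘ (rp i (2 * m + 1) + rp k (2 * m) + l) =
          rp (i + 1) (2 * m + 1) + rp k (2 * m) + l := by
        unfold rp
        rw [Multiset.replicate_succ, Multiset.cons_add, Multiset.cons_add]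
      rw [e3]
      exact h (i + 1) k (by omega)
    · have e3 : (2 * m) ::ₘ (rp i (2 * m + 1) + rp k (2 * m) + l) =
          rp i (2 * m + 1) + rp (k + 1) (2 * m) + l := by
        unfold rp
        rw [Multiset.replicate_succ, Multiset.add_cons, Multiset.cons_add]
      rw [e3]
      have := h i (k + 1) (by omega)
      calc gd d (rp i (2 * m + 1) + rp (k + 1) (2 * m) + l) ≤ N + (k + 1) * m := this
        _ = N + k * m + m := by ring

theorem t (h1 : S_G1M) (h2 : S_G2M) : S_GLUE := by
  intro d m s j N h0 hz
  -- (STEP)
  have step : ∀ i k, i + k = j →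
      gd d (rp i (2 * m + 1) + rp k (2 * m) + rp s m) ≤ N + k * m := by
    intro i
    induction i with
    | zero =>
      intro k hk
      have hk' : k = j := by omega
      subst hk'
      simpa [rp] using h0
    | succ i ih =>
      intro k hk
      have hi := ih (k + 1) (by omega)
      have hzz := hz i k (by omega)
      set a : ℕ → ℕ := fun t => gd d (t ::ₘ (rp i (2 * m + 1) + rp k (2 * m) + rp s m)) with ha
      have a0 : gd d (rp i (2 * m + 1) + rp (k + 1) (2 * m) + rp s m) = a (2 * m) := by
        rw [ha]
        unfold rp
        rw [Multiset.replicate_succ, Multiset.add_cons, Multiset.cons_add]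
      have a1 : gd d (rp (i + 1) (2 * m + 1) + rp k (2 * m) + rp s m) = a (2 * m + 1) := by
        rw [ha]
        unfold rp
        rw [Multiset.replicate_succ, Multiset.cons_add, Multiset.cons_add]
      have az : a (2 * m + k + 1) = 0 := hzz
      rw [a0] at hi
      rw [a1]
      have hi' : a (2 * m) ≤ N + k * m + m := by
        calc a (2 * m) ≤ N + (k + 1) * m := hi
          _ = N + k * m + m := by ring
      by_cases hc : a (2 * m + 1) + m ≤ a (2 * m)
      · omega
      · push Not at hc
        have key : ∀ r, a (2 * m + r) + 1 ≤ a (2 * m + r + 1) + m := by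
          intro r
          induction r with
          | zero =>
            have : a (2 * m + 0) = a (2 * m) := rfl
            rw [this]
            have : a (2 * m + 0 + 1) = a (2 * m + 1) := rfl
            rw [this]
            omega
          | succ r ihr =>
            have g := h2 d (2 * m + r) (rp i (2 * m + 1) + rp k (2 * m) + rp s m) (by
              change a (2 * m + r) ≤ a (2 * m + r + 1) + (2 * m + r)
              omega)
            have g' : 2 * a (2 * m + r + 1) ≤ a (2 * m + r) + a (2 * m + r + 2) := g
            change a (2 * m + r + 1) + 1 ≤ a (2 * m + r + 2) + m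
            omega
        have key2 : ∀ r, a (2 * m + 1) + r ≤ a (2 * m + r + 1) + r * m := by
          intro r
          induction r with
          | zero =>
            have : a (2 * m + 0 + 1) = a (2 * m + 1) := rfl
            rw [this]
            omega
          | succ r ihr =>
            have g := key (r + 1)
            have g' : a (2 * m + r + 1) + 1 ≤ a (2 * m + (r + 1) + 1) + m := g
            have e : (r + 1) * m = r * m + m := by ring
            rw [e]
            omega
        have f := key2 k
        rw [az] at f
        omega
  have e : rp (4 * j + s) m = rp (4 * j) m + rp s m := by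
    unfold rp
    rw [Multiset.replicate_add]
  rw [e]
  exact iter h1 d m N j (rp s m) step

end Pool.Agent.Helper25.UC.GLUE
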