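import Pool.Agent.Helper27.UC.Goals4

/-!
PROJECT UC (MP_d3128a_ag), packet GLUE3: gluing of groups of four points with several multiplicities
(helper25).
-/

set_option autoImplicit false

namespace Pool.Agent.Helper25.UC.GLUE3

open Pool.Agent.Helper27.UC

theorem t (h1 : S_G1M) (h2 : S_G2M) : S_GLUE3 := by
  intro d N g l hg h0 hz
  -- (STEP)
  have step : ∀ A B : Multiset ℕ, A + B = g →
      gd d (A.map (fun v => 2 * v + 1) + B.map (fun v => 2 * v) + l) ≤ N + B.sum := by
    intro A
    induction A using Multiset.induction_on with
    | empty =>
      intro B hB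
      have hB' : B = g := by rw [← hB, zero_add]
      subst hB'
      simpa using h0
    | cons u A ih =>
      intro B hB
      have hB2 : u ::ₘ (A + B) = g := by rw [← hB, Multiset.cons_add]
      have hu : 1 ≤ u := hg u (by rw [← hB2]; exact Multiset.mem_cons_self u _)
      have hi := ih (u ::ₘ B) (by rw [← hB2, Multiset.add_cons])
      have hzz := hz A B u hB2
      set l0 := A.map (fun v => 2 * v + 1) + B.map (fun v => 2 * v) + l with hl0
      set a : ℕ → ℕ := fun t => gd d (t ::ₘ l0) with ha
      have a0 : gd d (A.map (fun v => 2 * v + 1) + (u ::ₘ B).map (fun v => 2 * v) + l) =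
          a (2 * u) := by
        rw [ha, hl0, Multiset.map_cons, Multiset.add_cons, Multiset.cons_add]
      have a1 : gd d ((u ::ₘ A).map (fun v => 2 * v + 1) + B.map (fun v => 2 * v) + l) =
          a (2 * u + 1) := by
        rw [ha, hl0, Multiset.map_cons, Multiset.cons_add, Multiset.cons_add]
      have az : a (2 * u + 1 + (N + B.sum) / u) = 0 := hzz
      rw [a0, Multiset.sum_cons] at hi
      rw [a1]
      by_cases hc : a (2 * u + 1) + u ≤ a (2 * u)
      · omega
      · push Not at hc
        have key : ∀ r, a (2 * u + r) + 1 ≤ a (2 * u + r + 1) + u := by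
          intro r
          induction r with
          | zero => exact hc
          | succ r ihr =>
            have g := h2 d (2 * u + r) l0 (by
              change a (2 * u + r) ≤ a (2 * u + r + 1) + (2 * u + r)
              omega)
            have g' : 2 * a (2 * u + r + 1) ≤ a (2 * u + r) + a (2 * u + r + 2) := g
            change a (2 * u + r + 1) + 1 ≤ a (2 * u + r + 2) + u
            omega
        have key2 : ∀ r, a (2 * u + 1) + r ≤ a (2 * u + 1 + r) + r * u := by
          intro r
          induction r with
          | zero => simp
          | succ r ihr =>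
            have g := key (r + 1)
            have e1 : 2 * u + (r + 1) = 2 * u + 1 + r := by ring
            have e2 : 2 * u + 1 + (r + 1) = 2 * u + 1 + r + 1 := by ring
            rw [e1] at g
            rw [e2]
            have e : (r + 1) * u = r * u + u := by ring
            rw [e]
            omega
        have f := key2 ((N + B.sum) / u)
        rw [az, zero_add] at f
        have f2 : (N + B.sum) / u * u ≤ N + B.sum := Nat.div_mul_le_self _ u
        exact le_trans (Nat.le_add_right _ _) (le_trans f f2)
  -- (ITER)
  have iter : ∀ h A B : Multiset ℕ, A + B + h = g →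
      gd d (A.map (fun v => 2 * v + 1) + B.map (fun v => 2 * v) + 4 • h + l) ≤ N + B.sum := by
    intro h
    induction h using Multiset.induction_on with
    | empty =>
      intro A B hAB
      rw [smul_zero, add_zero]
      exact step A B (by rw [← hAB, add_zero])
    | cons u h ih =>
      intro A B hAB
      have e1 : A.map (fun v => 2 * v + 1) + B.map (fun v => 2 * v) + 4 • (u ::ₘ h) + l =
          rp 4 u + (A.map (fun v => 2 * v + 1) + B.map (fun v => 2 * v) + 4 • h + l) := by
        have e2 : (4 : ℕ) • (u ::ₘ h) = rp 4 u + 4 • h := by
          rw [← Multiset.singleton_add, nsmul_add, Multiset.nsmul_singleton]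
        rw [e2]
        abel
      rw [e1]
      refine h1 d u (N + B.sum) _ ?_ ?_
      · have h3 := ih (u ::ₘ A) B (by
          rw [← hAB, Multiset.cons_add, Multiset.cons_add, Multiset.add_cons])
        rw [Multiset.map_cons, Multiset.cons_add, Multiset.cons_add, Multiset.cons_add] at h3
        exact h3
      · have h3 := ih A (u ::ₘ B) (by
          rw [← hAB, Multiset.add_cons, Multiset.cons_add, Multiset.add_cons])
        rw [Multiset.map_cons, Multiset.add_cons, Multiset.cons_add, Multiset.cons_add,
          Multiset.sum_cons] at h3
        omega
  have h4 := iter g 0 0 (by simp)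
  simpa using h4

end Pool.Agent.Helper25.UC.GLUE3
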