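import Pool.Agent.Helper27.UC.Goals7

/-!
PROJECT UC part 5 (MP_d3128a_ag), packet ONEG: the degrees next to the critical one, repeated
multiplicities (helper25).
-/

set_option autoImplicit false

namespace Pool.Agent.Helper25.UC.ONEG

open Pool.Agent.Helper27.UC

lemma sum_map (f : ℕ → ℕ) (g h l : Multiset ℕ) (P : Multiset (ℕ × ℕ)) (hg : g = 4 • h + l) :
    ((4 • g + P.map Prod.snd).map f).sum =
      16 * (h.map f).sum + 4 * (l.map f).sum + (P.map fun p => f p.2).sum := by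
  subst hg
  rw [Multiset.map_add, Multiset.map_nsmul, Multiset.map_add, Multiset.map_nsmul,
    Multiset.sum_add, Multiset.sum_nsmul, Multiset.sum_add, Multiset.sum_nsmul,
    Multiset.map_map]
  simp only [smul_eq_mul, Function.comp_def]
  ring

lemma qs_eq (g h l : Multiset ℕ) (P : Multiset (ℕ × ℕ)) (hg : g = 4 • h + l) :
    ((4 • g + P.map Prod.snd).map fun v => v ^ 2).sum = qs h l P :=
  sum_map (fun v => v ^ 2) g h l P hg

lemma bs_eq (g h l : Multiset ℕ) (P : Multiset (ℕ × ℕ)) (hg : g = 4 • h + l) :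
    ((4 • g + P.map Prod.snd).map fun v => (v + 1).choose 2).sum = bs h l P :=
  sum_map (fun v => (v + 1).choose 2) g h l P hg

lemma ms_eq (g h l : Multiset ℕ) (P : Multiset (ℕ × ℕ)) (hg : g = 4 • h + l) :
    (4 • g + P.map Prod.snd).sum = ms h l P := by
  have := sum_map (fun v => v) g h l P hg
  simpa [ms] using this

lemma two_choose (v : ℕ) : 2 * (v + 1).choose 2 = v ^ 2 + v := by
  rw [Nat.choose_two_right, Nat.mul_div_cancel' (Nat.even_mul_pred_self (v + 1)).two_dvd,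
    Nat.add_sub_cancel]
  ring

lemma two_bs (L : Multiset ℕ) :
    2 * (L.map fun v => (v + 1).choose 2).sum = (L.map fun v => v ^ 2).sum + L.sum := by
  induction L using Multiset.induction with
  | empty => simp
  | cons a L ih =>
    rw [Multiset.map_cons, Multiset.sum_cons, Multiset.map_cons, Multiset.sum_cons,
      Multiset.sum_cons, mul_add, ih, two_choose]
    ring

lemma K_bounds {K : ℕ} (hK : 1 ≤ K) :
    2 * (30 * K ^ 2) + 8 ≤ 10 ^ 4 * K ^ 3 := by
  have h1 : 1 ≤ K ^ 2 := Nat.one_le_pow _ _ hK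
  have h2 : K ^ 2 ≤ K ^ 3 := Nat.pow_le_pow_right hK (by norm_num)
  have : (10 : ℕ) ^ 4 = 10000 := by norm_num
  omega

/-- The bound for the expected dimension. -/
lemma N_bound {K n m d Q M N : ℕ} (hK : 1 ≤ K) (hn : 10 ^ 8 * K ^ 4 ≤ n) (hnm : n ≤ m)
    (hQ : Q ≤ n * m ^ 2) (hM : M ≤ n * m) (hd : d * (d + 1) < Q + M)
    (hN : N = (d + 2).choose 2 - (Q + M) / 2) (hev : 2 * ((Q + M) / 2) = Q + M) :
    1000 * K * N ≤ n * m := by
  have h1 : 2 * (d + 2).choose 2 = (d + 1) ^ 2 + (d + 1) := two_choose (d + 1)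
  have h2 : N ≤ d + 1 := by
    have : (d + 1) ^ 2 + (d + 1) = d * (d + 1) + 2 * (d + 1) := by ring
    omega
  have hK4 : K ^ 2 ≤ K ^ 4 := Nat.pow_le_pow_right hK (by norm_num)
  have hK1 : 1 ≤ K ^ 4 := Nat.one_le_pow _ _ hK
  have e8 : (10 : ℕ) ^ 8 = 100000000 := by norm_num
  rw [e8] at hn
  have hn1 : 1 ≤ n := by omega
  have hm1 : 1 ≤ m := le_trans hn1 hnm
  have h3 : Q + M ≤ 2 * (n * m ^ 2) := by
    have : n * m ≤ n * m ^ 2 := Nat.mul_le_mul_left _ (Nat.le_self_pow (by norm_num) m)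
    omega
  have h4 : (d + 1) ^ 2 ≤ 8 * (n * m ^ 2) := by
    have h5 : 1 ≤ n * m ^ 2 := Nat.mul_pos hn1 (pow_pos hm1 2)
    rcases Nat.eq_zero_or_pos d with rfl | hd0
    · omega
    · have : (d + 1) ^ 2 ≤ 4 * (d * (d + 1)) := by nlinarith
      omega
  have h6 : (1000 * K * (d + 1)) ^ 2 ≤ (n * m) ^ 2 := by
    calc (1000 * K * (d + 1)) ^ 2 = 1000000 * K ^ 2 * (d + 1) ^ 2 := by ring
      _ ≤ 1000000 * K ^ 2 * (8 * (n * m ^ 2)) := Nat.mul_le_mul_left _ h4
      _ = (8000000 * K ^ 2) * (n * m ^ 2) := by ring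
      _ ≤ n * (n * m ^ 2) := Nat.mul_le_mul_right _ (by omega)
      _ = (n * m) ^ 2 := by ring
  have h7 : 1000 * K * (d + 1) ≤ n * m := (Nat.pow_le_pow_iff_left (by norm_num)).1 h6
  exact le_trans (Nat.mul_le_mul_left _ h2) h7

theorem t (hG : S_GLUE3) (hL : S_LEV1) (hE : S_EMPT) (hS : S_SPL2) (hH : S_HDS) (hB : S_HDB) :
    S_ONEG := by
  intro K n m d g P hHG hCR
  obtain ⟨hK, hn, hnm, hcard, hg, hP, hP1, hP2⟩ := id hHG
  have hKb := K_bounds hK
  have e8 : (10 : ℕ) ^ 8 = 100000000 := by norm_num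
  have hK4 : 1 ≤ K ^ 4 := Nat.one_le_pow _ _ hK
  have hm1 : 1 ≤ m := by omega
  have hpos : ∀ v ∈ g, 1 ≤ v := by
    intro v hv
    have h1 := (hg v hv).2.1
    by_contra hcon
    have : v = 0 := by omega
    subst this
    omega
  -- the first decomposition
  obtain ⟨A2, A0, B2, B0, hA, hB0, hcnt⟩ := hS (30 * K ^ 2) g 0 (by
    intro v hv
    rw [add_zero] at hv ⊢
    have := (hg v hv).2.2
    omega)
  have hgd : g = 4 • (A2 + B2) + (A0 + B0) := by
    calc g = g + 0 := (add_zero g).symm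
      _ = (4 • A2 + A0) + (4 • B2 + B0) := by rw [← hA, ← hB0]
      _ = _ := by rw [nsmul_add]; abel
  have hHD : HD K n m (A2 + B2) (A0 + B0) P := hH K n m g (A2 + B2) (A0 + B0) P hHG hgd (by
    intro v hv
    have := hcnt v (by rw [add_zero]; exact hv)
    omega)
  set N := (d + 2).choose 2 -
    ((4 • g + P.map Prod.snd).map fun v => (v + 1).choose 2).sum with hN
  have h2b := two_bs (4 • g + P.map Prod.snd)
  have hbnd : 1000 * K * N ≤ n * m := by
    obtain ⟨-, b1, -, -, -, -, -, b2, -, -⟩ := hB K n m _ _ P hHD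
    refine N_bound (d := d) (Q := qs (A2 + B2) (A0 + B0) P) (M := ms (A2 + B2) (A0 + B0) P)
      hK hn hnm b2 b1 ?_ ?_ ?_
    · rw [← qs_eq g _ _ P hgd, ← ms_eq g _ _ P hgd]
      exact hCR.1
    · rw [hN, ← qs_eq g _ _ P hgd, ← ms_eq g _ _ P hgd, ← h2b,
        Nat.mul_div_cancel_left _ (by norm_num)]
    · rw [← qs_eq g _ _ P hgd, ← ms_eq g _ _ P hgd, ← h2b,
        Nat.mul_div_cancel_left _ (by norm_num)]
  refine hG d N g (P.map Prod.snd) hpos ?_ ?_
  · have h1 := hL K n m d N (A2 + B2) (A0 + B0) P hHD (by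
      rw [← qs_eq g _ _ P hgd, ← ms_eq g _ _ P hgd]; exact hCR) (by
      rw [← bs_eq g _ _ P hgd]; omega)
    rw [← hgd] at h1
    exact h1
  · intro A B u hu
    have hcu : ∀ v, g.count v = (A + B).count v + if v = u then 1 else 0 := by
      intro v
      rw [← hu, Multiset.count_cons]
    obtain ⟨A2', A0', B2', B0', hA', hB', hcnt'⟩ := hS (30 * K ^ 2) A B (by
      intro v hv
      have hvg : v ∈ g := by rw [← hu]; exact Multiset.mem_cons_of_mem hv
      have h1 := (hg v hvg).2.2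
      have h2 := hcu v
      split_ifs at h2 <;> omega)
    have hgd' : g = 4 • (A2' + B2') + u ::ₘ (A0' + B0') := by
      rw [← hu, hA', hB', nsmul_add, ← Multiset.singleton_add, ← Multiset.singleton_add]
      abel
    have hHD' : HD K n m (A2' + B2') (u ::ₘ (A0' + B0')) P :=
      hH K n m g (A2' + B2') (u ::ₘ (A0' + B0')) P hHG hgd' (by
        intro v hv
        have h1 := (hg v hv).2.2
        have h2 := hcu v
        have hvAB : v ∈ A + B := by
          rw [← Multiset.one_le_count_iff_mem]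
          split_ifs at h2 <;> omega
        have h3 := hcnt' v hvAB
        rw [Multiset.count_cons]
        split_ifs <;> omega)
    have h1 := hE K n m d N u A2' A0' B2' B0' P hHD' (by
      rw [← qs_eq g _ _ P hgd', ← ms_eq g _ _ P hgd']; exact hCR) (by
      rw [← bs_eq g _ _ P hgd']; omega) hbnd
    rw [← hA', ← hB'] at h1
    exact h1

end Pool.Agent.Helper25.UC.ONEG
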