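import Pool.Agent.Helper27.UC.Goals6

/-!
PROJECT UC (MP_d3128a_ag), packet ONEN: the degrees next to the critical one, almost equal multiplicities
(helper25).
-/

set_option autoImplicit false

namespace Pool.Agent.Helper25.UC.ONEN

open Pool.Agent.Helper27.UC

lemma mem_of_mem {g l : Multiset ℕ} {v : ℕ} (h : v ∈ g) : v ∈ 4 • g + l := by
  rw [Multiset.mem_add]
  left
  rw [show (4 : ℕ) = 3 + 1 from rfl, succ_nsmul, Multiset.mem_add]
  exact Or.inr h

lemma card_eq (g l : Multiset ℕ) :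
    Multiset.card (4 • g + l) = 4 * Multiset.card g + Multiset.card l := by
  rw [Multiset.card_add, Multiset.card_nsmul]

/-- The two bounds for the cardinals. -/
lemma bounds {n q c : ℕ} (hn : 10 ^ 10 ≤ n) (hq : (10000 * q) ^ 2 ≤ n)
    (h1 : Nat.sqrt n / 10 + 1 ≤ c) (h2 : c ≤ Nat.sqrt n / 10 + 1 + 3 * q + 4) :
    25 * c ^ 2 ≤ n ∧ n ≤ 100 * c ^ 2 ∧ 5 * c ≤ Nat.sqrt n ∧ 10 ^ 5 ≤ Nat.sqrt n := by
  have hs : 10 ^ 5 ≤ Nat.sqrt n := by
    rw [Nat.le_sqrt']
    exact le_trans (by norm_num) hn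
  have hq' : 10000 * q ≤ Nat.sqrt n := by
    rw [Nat.le_sqrt']
    exact hq
  have e5 : (10 : ℕ) ^ 5 = 100000 := by norm_num
  rw [e5] at hs
  have h5 : 5 * c ≤ Nat.sqrt n := by omega
  have h10 : Nat.sqrt n + 1 ≤ 10 * c := by omega
  refine ⟨?_, ?_, h5, by rw [e5]; exact hs⟩
  · have := Nat.le_sqrt'.1 h5
    calc 25 * c ^ 2 = (5 * c) ^ 2 := by ring
      _ ≤ n := this
  · have h6 : n < (Nat.sqrt n + 1) ^ 2 := Nat.lt_succ_sqrt' n
    calc n ≤ (Nat.sqrt n + 1) ^ 2 := h6.le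
      _ ≤ (10 * c) ^ 2 := Nat.pow_le_pow_left h10 2
      _ = 100 * c ^ 2 := by ring

theorem t (hS : S_SPLIT) (hG : S_GLUE3) (hE1 : S_EMP1) (hE2 : S_EMP2) (hR : S_REGN) : S_ONEN := by
  intro n m b q d L hL hd1 hd2
  have hL' := hL
  obtain ⟨hcard, hv, hq, hn, hqn, hb, hm⟩ := hL'
  -- the elements are positive
  have hpos : ∀ v ∈ L, 1 ≤ v := by
    intro v hvL
    have h1 := (hv v hvL).2
    have h2 : n ≤ n ^ 5 := Nat.le_self_pow (by norm_num) n
    have h3 : 1 ≤ n := le_trans (by norm_num) hn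
    omega
  have hs5 : 10 ^ 5 ≤ Nat.sqrt n := by
    rw [Nat.le_sqrt']
    exact le_trans (by norm_num) hn
  have hsq : Nat.sqrt n * Nat.sqrt n ≤ n := Nat.sqrt_le n
  have hbig : 100000 * Nat.sqrt n ≤ n := by
    have : (10 : ℕ) ^ 5 * Nat.sqrt n ≤ Nat.sqrt n * Nat.sqrt n := Nat.mul_le_mul_right _ hs5
    have e5 : (10 : ℕ) ^ 5 = 100000 := by norm_num
    rw [e5] at this
    omega
  obtain ⟨g, l, hgl, hl1, hl2⟩ := hS L q (Nat.sqrt n / 10 + 1) hq (by omega)
  obtain ⟨l1, l2, l3, -⟩ := bounds hn hqn hl1 hl2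
  have hcg : 4 * Multiset.card g + Multiset.card l = n := by
    rw [← card_eq, hgl, hcard]
  have hgq : g.toFinset.card ≤ q := by
    refine le_trans (Finset.card_le_card ?_) hq
    intro x hx
    rw [Multiset.mem_toFinset] at hx ⊢
    rw [← hgl]
    exact mem_of_mem hx
  obtain ⟨h, l', hhl, hl1', hl2'⟩ := hS g q (Nat.sqrt n / 10 + 1) hgq (by omega)
  obtain ⟨l1', l2', -, -⟩ := bounds hn hqn hl1' hl2'
  have hLL : 4 • (4 • h + l') + l = L := by rw [hhl, hgl]
  set N := (d + 2).choose 2 - (L.map fun v => (v + 1).choose 2).sum with hN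
  have hposg : ∀ v ∈ g, 1 ≤ v := fun v hvg => hpos v (by rw [← hgl]; exact mem_of_mem hvg)
  have hposh : ∀ v ∈ h, 1 ≤ v := fun v hvh => hposg v (by rw [← hhl]; exact mem_of_mem hvh)
  rw [← hgl]
  refine hG d N g l hposg ?_ ?_
  · -- second level
    have e : g.map (fun v => 2 * v) + l =
        4 • h.map (fun v => 2 * v) + (l'.map (fun v => 2 * v) + l) := by
      conv_lhs => rw [← hhl]
      rw [Multiset.map_add, Multiset.map_nsmul, add_assoc]
    rw [e]
    refine hG d (N + g.sum) (h.map (fun v => 2 * v)) (l'.map (fun v => 2 * v) + l) ?_ ?_ ?_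
    · intro v hvm
      obtain ⟨w, hw, rfl⟩ := Multiset.mem_map.1 hvm
      have := hposh w hw
      omega
    · have h4 := hR n m b q d N h l' l (by rw [hLL]; exact hL) l1 l2 l1'
        (le_trans l2' (Nat.mul_le_mul_right _ (by norm_num))) (by rw [hLL]; exact hd1)
        (by rw [hLL]; exact hd2) (by
          rw [hLL, hN]
          omega)
      rw [hhl] at h4
      exact h4
    · exact hE2 n m b q d (N + g.sum) h l' l (by rw [hLL]; exact hL) l1 l2 l1'
        (le_trans l2' (Nat.mul_le_mul_right _ (by norm_num))) (by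
          rw [hhl]
          omega) (by rw [hLL]; exact hd1)
  · exact hE1 n m b q d N g l (by rw [hgl]; exact hL) l1 l2 (by rw [hgl]; exact hd1)

end Pool.Agent.Helper25.UC.ONEN
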