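import Pool.Agent.Helper27.UC.Goals6

/-!
PROJECT UC (MP_d3128a_ag), packet SPLIT: groups of four equal elements (helper25).
-/

set_option autoImplicit false

namespace Pool.Agent.Helper25.UC.SPLIT

open Pool.Agent.Helper27.UC

theorem t : S_SPLIT := by
  intro L q s
  induction hk : Multiset.card L using Nat.strong_induction_on generalizing L with
  | _ k ih =>
    intro hq hs
    by_cases hc : Multiset.card L ≤ s + 3 * q + 4
    · exact ⟨0, L, by simp, hk ▸ hs, hc⟩
    · push Not at hc
      have hv : ∃ v ∈ L.toFinset, 4 ≤ L.count v := by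
        by_contra hno
        push Not at hno
        have h1 : ∑ v ∈ L.toFinset, L.count v ≤ ∑ v ∈ L.toFinset, 3 :=
          Finset.sum_le_sum fun v hv => Nat.lt_succ_iff.1 (hno v hv)
        rw [Multiset.toFinset_sum_count_eq, Finset.sum_const, smul_eq_mul] at h1
        omega
      obtain ⟨v, -, hv4⟩ := hv
      have hle : rp 4 v ≤ L := Multiset.le_count_iff_replicate_le.1 hv4
      have hadd : L - rp 4 v + rp 4 v = L := Multiset.sub_add_cancel hle
      have hcard : Multiset.card (L - rp 4 v) + 4 = Multiset.card L := by
        conv_rhs => rw [← hadd]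
        rw [Multiset.card_add, Multiset.card_replicate]
      have hsub : (L - rp 4 v).toFinset ⊆ L.toFinset := by
        intro x hx
        rw [Multiset.mem_toFinset] at hx ⊢
        exact Multiset.mem_of_le (Multiset.sub_le_self _ _) hx
      obtain ⟨g, l, h1, h2, h3⟩ := ih (Multiset.card (L - rp 4 v)) (by omega) (L - rp 4 v) rfl
        ((Finset.card_le_card hsub).trans hq) (by omega)
      refine ⟨v ::ₘ g, l, ?_, h2, h3⟩
      have e2 : (4 : ℕ) • (v ::ₘ g) = rp 4 v + 4 • g := by
        rw [← Multiset.singleton_add, nsmul_add, Multiset.nsmul_singleton]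
      rw [e2, add_assoc, h1, add_comm, hadd]

end Pool.Agent.Helper25.UC.SPLIT
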